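import Pool.Agent.H84.KBOX.Stmts
import Pool.Agent.H37.S3.CHN
import Pool.Agent.H37.S3.PRE
import Pool.Agent.H45.KAL.LRM
import Pool.Agent.H33.KAL.RMG
import Pool.Agent.H99.KAL.GVI
import Pool.Agent.H68.KAL.RIM

/-!
# Row CHR of the board kbx: Remez inequality along a chain, with a label
-/

set_option autoImplicit false

namespace Pool.Agent.H81.KBX

open Finset Real
open Pool.Agent.H49.Ent Pool.Agent.H32.Dense Pool.STK Pool.KAF Pool.KAL Pool.KS3 Pool.KBX

section basic

variable {Ω S U : Type} [Fintype Ω] {p : Ω → ℝ}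

open Classical in
lemma prE (p : Ω → ℝ) (E : Set Ω) : Pr p E = ∑ ω, if ω ∈ E then p ω else 0 := by
  unfold Pr Pool.Agent.H49.Ent.law
  refine Finset.sum_congr rfl fun ω _ => ?_
  simp

lemma prEx (p : Ω → ℝ) (E : Set Ω) : Pr p E = ∑ ω, p ω * (E.indicator (fun _ => (1 : ℝ)) ω) := by
  classical
  rw [prE]
  refine Finset.sum_congr rfl fun ω _ => ?_
  by_cases h : ω ∈ E
  · rw [if_pos h, Set.indicator_of_mem h, mul_one]
  · rw [if_neg h, Set.indicator_of_notMem h, mul_zero]

lemma pr_nonneg (hp : ∀ ω, 0 ≤ p ω) (E : Set Ω) : 0 ≤ Pr p E := law_nonneg hp _ _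

/-- Markov's inequality. -/
lemma markov4 (hp : IsLaw p) (X : Ω → ℝ) (hX : ∀ ω, 0 ≤ X ω) {E B : ℝ} (hE : Ex p X ≤ E)
    (hB : 4 * E ≤ B) : Pr p {ω | B < X ω} ≤ 1 / 4 := by
  classical
  have hEx0 : 0 ≤ Ex p X := Ex_nonneg hp.nonneg fun ω _ => hX ω
  have hB0 : 0 ≤ B := by linarith only [hE, hB, hEx0]
  rcases hB0.eq_or_lt with h0 | h0
  · have h1 : Ex p X = 0 := by linarith only [hEx0, hE, hB, h0]
    have h2 : ∀ ω, p ω * X ω = 0 := by
      have h3 := (Finset.sum_eq_zero_iff_of_nonneg
        (fun ω _ => mul_nonneg (hp.nonneg ω) (hX ω))).mp h1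
      exact fun ω => h3 ω (Finset.mem_univ ω)
    have h3 : Pr p {ω | B < X ω} = 0 := by
      rw [prE]
      refine Finset.sum_eq_zero fun ω _ => ?_
      split_ifs with h
      · have h4 : 0 < X ω := by
          have : B < X ω := h
          linarith only [hE, hB, hEx0, this]
        rcases mul_eq_zero.mp (h2 ω) with h5 | h5
        · exact h5
        · exact absurd h5 h4.ne'
      · rfl
    rw [h3]
    norm_num
  · have h1 : B * Pr p {ω | B < X ω} ≤ Ex p X := by
      rw [prE, Finset.mul_sum]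
      unfold Ex
      refine Finset.sum_le_sum fun ω _ => ?_
      split_ifs with h
      · have h4 : B < X ω := h
        nlinarith only [h4, hp, hp.nonneg ω, mul_le_mul_of_nonneg_left h4.le (hp.nonneg ω)]
      · rw [mul_zero]
        exact mul_nonneg (hp.nonneg ω) (hX ω)
    have h2 : B * Pr p {ω | B < X ω} ≤ B * (1 / 4) := by linarith only [hE, hB, h1]
    exact le_of_mul_le_mul_left h2 h0

lemma pr_cover (hp : IsLaw p) {A B C : Set Ω} (h : ∀ ω, ω ∈ A ∨ ω ∈ B ∨ ω ∈ C) :
    1 ≤ Pr p A + Pr p B + Pr p C := by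
  classical
  rw [prE, prE, prE, ← Finset.sum_add_distrib, ← Finset.sum_add_distrib, ← hp.sum_one]
  refine Finset.sum_le_sum fun ω _ => ?_
  have h0 := hp.nonneg ω
  have h1 := h ω
  split_ifs <;> first | linarith | tauto

/-- The probability of an event under the product of the marginals. -/
lemma prod_event (hp : IsLaw p) (X : Ω → S) (Z : Ω → U) (A : Set (U × S)) {ρ : ℝ} (hρ : 0 < ρ)
    (h : ∑ ω, p ω * Pr p {ω' | (Z ω, X ω') ∈ A} ≤ ρ) :
    Pr p {ω | (Z ω, X ω) ∈ A} * Real.log (1 / ρ) ≤ (H p X - CH p X Z) + Real.log 2 := by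
  classical
  have hp0 := hp.nonneg
  set f : U × S → ℝ := fun c => 1 + A.indicator (fun _ => 1 / ρ) c with hf
  have hind : ∀ c, 0 ≤ A.indicator (fun _ => 1 / ρ) c := fun c =>
    Set.indicator_nonneg (fun _ _ => by positivity) c
  have hf1 : ∀ c, 1 ≤ f c := fun c => by
    simp only [hf]
    linarith only [hind, hind c]
  have hf0 : ∀ c, 0 < f c := fun c => lt_of_lt_of_le one_pos (hf1 c)
  have hg0 : ∀ c : S × U, 0 ≤ law p X c.1 * law p Z c.2 * f (c.2, c.1) := fun c =>
    mul_nonneg (mul_nonneg (law_nonneg hp0 _ _) (law_nonneg hp0 _ _)) (hf0 _).le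
  have htot : ∑ c ∈ (univ.image X) ×ˢ (univ.image Z),
      law p X c.1 * law p Z c.2 * f (c.2, c.1) ≤ 2 := by
    have e1 : ∑ c ∈ (univ.image X) ×ˢ (univ.image Z),
        law p X c.1 * law p Z c.2 * f (c.2, c.1) =
        ∑ ω, p ω * ∑ ω', p ω' * f (Z ω, X ω') := by
      rw [Finset.sum_product_right]
      rw [sum_mul_eq_sum_image p Z (fun z => ∑ ω', p ω' * f (z, X ω'))]
      refine Finset.sum_congr rfl fun z _ => ?_
      rw [sum_mul_eq_sum_image p X (fun x => f (z, x)), Finset.mul_sum]
      refine Finset.sum_congr rfl fun x _ => ?_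
      ring
    rw [e1]
    have e2 : ∀ ω, ∑ ω', p ω' * f (Z ω, X ω') =
        1 + 1 / ρ * Pr p {ω' | (Z ω, X ω') ∈ A} := by
      intro ω
      have e3 : ∀ ω', p ω' * f (Z ω, X ω') = p ω' +
          1 / ρ * (p ω' * ({ω' | (Z ω, X ω') ∈ A} : Set Ω).indicator (fun _ => (1 : ℝ)) ω') := by
        intro ω'
        by_cases hc : (Z ω, X ω') ∈ A
        · rw [Set.indicator_of_mem (show ω' ∈ ({ω' | (Z ω, X ω') ∈ A} : Set Ω) from hc)]
          simp only [hf]
          rw [Set.indicator_of_mem hc]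
          ring
        · rw [Set.indicator_of_notMem (show ω' ∉ ({ω' | (Z ω, X ω') ∈ A} : Set Ω) from hc)]
          simp only [hf]
          rw [Set.indicator_of_notMem hc]
          ring
      rw [Finset.sum_congr rfl fun ω' _ => e3 ω', Finset.sum_add_distrib, hp.sum_one,
        ← Finset.mul_sum, ← prEx]
    have e4 : ∑ ω, p ω * ∑ ω', p ω' * f (Z ω, X ω') =
        1 + 1 / ρ * ∑ ω, p ω * Pr p {ω' | (Z ω, X ω') ∈ A} := by
      have e5 : ∀ ω, p ω * ∑ ω', p ω' * f (Z ω, X ω') =
          p ω + 1 / ρ * (p ω * Pr p {ω' | (Z ω, X ω') ∈ A}) := by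
        intro ω
        rw [e2 ω]
        ring
      rw [Finset.sum_congr rfl fun ω _ => e5 ω, Finset.sum_add_distrib, hp.sum_one,
        ← Finset.mul_sum]
    rw [e4]
    have e6 : 1 / ρ * ∑ ω, p ω * Pr p {ω' | (Z ω, X ω') ∈ A} ≤ 1 / ρ * ρ :=
      mul_le_mul_of_nonneg_left h (by positivity)
    have e7 : 1 / ρ * ρ = 1 := by field_simp
    linarith only [e6, e7]
  have hsum : ∀ F : Finset (S × U),
      ∑ c ∈ F, law p X c.1 * law p Z c.2 * f (c.2, c.1) / 2 ≤ 1 := by
    intro F
    have e1 : ∑ c ∈ F, law p X c.1 * law p Z c.2 * f (c.2, c.1) ≤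
        ∑ c ∈ F ∪ (univ.image X) ×ˢ (univ.image Z),
          law p X c.1 * law p Z c.2 * f (c.2, c.1) :=
      Finset.sum_le_sum_of_subset_of_nonneg Finset.subset_union_left fun c _ _ => hg0 c
    have e2 : ∑ c ∈ F ∪ (univ.image X) ×ˢ (univ.image Z),
          law p X c.1 * law p Z c.2 * f (c.2, c.1) =
        ∑ c ∈ (univ.image X) ×ˢ (univ.image Z),
          law p X c.1 * law p Z c.2 * f (c.2, c.1) := by
      symm
      refine Finset.sum_subset Finset.subset_union_right fun c _ hc => ?_
      rw [Finset.mem_product, not_and_or] at hc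
      rcases hc with hc | hc
      · rw [law_eq_zero_of_notMem p X hc]
        ring
      · rw [law_eq_zero_of_notMem p Z hc]
        ring
    rw [← Finset.sum_div]
    rw [e2] at e1
    linarith only [htot, e1]
  have key := CH_le_cross hp0 hp.sum_one (fun ω => (X ω, Z ω)) (fun _ : Ω => ())
    (fun _ c => law p X c.1 * law p Z c.2 * f (c.2, c.1) / 2)
    (fun ω hω => div_pos (mul_pos (mul_pos (law_pos hp0 X hω) (law_pos hp0 Z hω)) (hf0 _))
      two_pos)
    (fun _ c => div_nonneg (hg0 c) two_pos.le) (fun _ _ F => hsum F)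
  have h1 : CH p (fun ω => (X ω, Z ω)) (fun _ : Ω => ()) = H p (fun ω => (X ω, Z ω)) := by
    unfold CH
    rw [H_const hp.sum_one, sub_zero]
    refine H_congr hp0 ?_ ?_
    · intro ω ω' _ _ e
      exact Prod.ext e rfl
    · intro ω ω' _ _ e
      exact (Prod.ext_iff.mp e).1
  have h2 : Ex p (fun ω => -Real.log (law p X (X ω) * law p Z (Z ω) * f (Z ω, X ω) / 2)) ≤
      H p X + H p Z - Pr p {ω | (Z ω, X ω) ∈ A} * Real.log (1 / ρ) + Real.log 2 := by
    have e1 : ∀ ω, p ω * -Real.log (law p X (X ω) * law p Z (Z ω) * f (Z ω, X ω) / 2) ≤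
        -(p ω * Real.log (law p X (X ω))) + -(p ω * Real.log (law p Z (Z ω))) +
        (-(p ω * ({ω | (Z ω, X ω) ∈ A} : Set Ω).indicator (fun _ => (1 : ℝ)) ω) *
          Real.log (1 / ρ) + p ω * Real.log 2) := by
      intro ω
      rcases (hp0 ω).eq_or_lt with h0 | h0
      · rw [← h0]
        simp
      · have a1 := law_pos hp0 X h0
        have a2 := law_pos hp0 Z h0
        have a3 := hf0 (Z ω, X ω)
        rw [Real.log_div (by positivity) (by norm_num), Real.log_mul (by positivity) a3.ne',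
          Real.log_mul a1.ne' a2.ne']
        have a4 : ({ω | (Z ω, X ω) ∈ A} : Set Ω).indicator (fun _ => (1 : ℝ)) ω *
            Real.log (1 / ρ) ≤ Real.log (f (Z ω, X ω)) := by
          by_cases hc : (Z ω, X ω) ∈ A
          · rw [Set.indicator_of_mem (show ω ∈ ({ω | (Z ω, X ω) ∈ A} : Set Ω) from hc), one_mul]
            refine Real.log_le_log (by positivity) ?_
            simp only [hf]
            rw [Set.indicator_of_mem hc]
            linarith only
          · rw [Set.indicator_of_notMem (show ω ∉ ({ω | (Z ω, X ω) ∈ A} : Set Ω) from hc),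
              zero_mul]
            exact Real.log_nonneg (hf1 _)
        have a5 := mul_le_mul_of_nonneg_left a4 h0.le
        linarith only [a5]
    have e2 := Finset.sum_le_sum (s := Finset.univ) fun ω _ => e1 ω
    rw [Finset.sum_add_distrib, Finset.sum_add_distrib, Finset.sum_add_distrib,
      ← Finset.sum_mul, ← Finset.sum_mul, hp.sum_one, Finset.sum_neg_distrib,
      Finset.sum_neg_distrib, Finset.sum_neg_distrib, ← prEx] at e2
    unfold Ex
    unfold H
    linarith only [e2]
  rw [h1] at key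
  have h3 : CH p X Z = H p (fun ω => (X ω, Z ω)) - H p Z := rfl
  simp only at key
  linarith only [key, h2, h3]

end basic

/-- Conditional independence of the label and the chain. -/
lemma ci_label {W V S T : Type} {B Ξ : Type} [Fintype W] [Fintype V] {q : W → ℝ} {r : V → ℝ}
    (hq : IsLaw q) (hr : IsLaw r) {σ : W → S} {z : Ξ → S} {y₀ : V → Ξ}
    (hZ : ∀ s, law q σ s = law r (fun v => z (y₀ v)) s) (b : W → B) (c : V → T) :
    CI (glue q r σ (fun v => z (y₀ v))) (fun u => b u.1) (fun u => c u.2) (fun u => y₀ u.2) := by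
  have hq0 := hq.nonneg
  have hr0 := hr.nonneg
  set Q := glue q r σ (fun v => z (y₀ v)) with hQ
  have hQ0 : ∀ u, 0 ≤ Q u := glue_nonneg hq0 hr0
  have h1 : CI Q (fun u => b u.1) (fun u => (y₀ u.2, c u.2)) (fun u => σ u.1) :=
    CI_glue hq0 hr0 hZ b (fun v => (y₀ v, c v))
  have h2 := h1.weak hQ0
  refine h2.congr hQ0 ?_ ?_
  · intro u u' _ _ e
    exact (Prod.ext_iff.mp e).1
  · intro u u' a a' e
    refine Prod.ext e ?_
    have e1 := ((glue_pos_iff hq0 hr0 u).mp a).2.2
    have e2 := ((glue_pos_iff hq0 hr0 u').mp a').2.2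
    change σ u.1 = σ u'.1
    rw [e1, e2]
    exact congrArg z e

lemma two_max {a b η : ℝ} (h : a ≤ b + η) : a ≤ 2 * max b η := by
  rcases le_total b η with h1 | h1
  · rw [max_eq_right h1]; linarith only [h, h1]
  · rw [max_eq_left h1]; linarith only [h, h1]

theorem chr_thm : CHRStmt := by
  classical
  intro D
  obtain ⟨C₀, hC₀, hstp⟩ := stp_thm (rix_thm (rim_thm rmg_thm gvi_thm)) D
  have hlog2 : 0 < Real.log 2 := Real.log_pos (by norm_num)
  have hD0 : (0 : ℝ) ≤ D := Nat.cast_nonneg D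
  refine ⟨8 * D * (C₀ + 1) + 8 * Real.log 2 + 2, by nlinarith only [hlog2, hD0, hC₀, mul_nonneg hD0 hC₀], ?_⟩
  set C : ℝ := 8 * D * (C₀ + 1) + 8 * Real.log 2 + 2 with hC
  have hC2 : 2 ≤ C := by nlinarith only [hlog2, hD0, hC₀, mul_nonneg hD0 hC₀]
  intro Ω Λ Ξ W 𝔅 S _ _ p lam x T M N q ζ σ b F PF g η e₁ e₄ 𝒢 hp hq hM hT hσ hη hη1 hdeg hnear
    hcap hg he₁ htime he₄ hmix h𝒢
  obtain ⟨V, instV, r, o, o', l, y, hch⟩ := chn_thm Ω Λ Ξ p lam x N hp
  have hq0 := hq.nonneg
  have hr0 := hch.isLaw.nonneg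
  have hM0 : 0 < M := by omega
  have hMr : (1 : ℝ) ≤ M := by exact_mod_cast hM0
  have hZ : ∀ s, law q σ s = law r (fun v => ζ (y 0 v)) s := by
    intro s
    rw [hσ s]
    exact (law_comp_eq (hch.cell 0 (Nat.zero_le N)) ζ s).symm
  set Q := glue q r σ (fun v => ζ (y 0 v)) with hQ
  have hQ0 : ∀ u, 0 ≤ Q u := glue_nonneg hq0 hr0
  have m1 : Marg Q q (fun u => u.1) := marg_fst hq0 hZ
  have m2 : Marg Q r (fun u => u.2) := marg_snd hr0 hZ
  have hQl : IsLaw Q := ⟨hQ0, by rw [m1.sum]; exact hq.sum_one⟩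
  have hpos : ∀ u, 0 < Q u → 0 < q u.1 ∧ 0 < r u.2 ∧ σ u.1 = ζ (y 0 u.2) :=
    fun u hu => (glue_pos_iff hq0 hr0 u).mp hu
  -- the size of the function
  set h : 𝔅 → Ξ → ℝ := fun β ξ => Real.log (max |F β ξ| η) with hh
  have hmax : ∀ β ξ, 0 < max |F β ξ| η := fun β ξ => lt_max_of_lt_right hη
  have hhη : ∀ β ξ, Real.log η ≤ h β ξ := fun β ξ => Real.log_le_log hη (le_max_right _ _)
  -- the supremum on the line
  have hsup : ∀ (P : Polynomial ℝ), ∃ s ∈ Set.Icc (0 : ℝ) 1, ∀ t ∈ Set.Icc (0 : ℝ) 1,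
      |P.eval t| ≤ |P.eval s| := by
    intro P
    obtain ⟨s, hs, hs'⟩ := isCompact_Icc.exists_isMaxOn (s := Set.Icc (0 : ℝ) 1)
      (f := fun t => |P.eval t|) ⟨0, by constructor <;> norm_num⟩
      (P.continuous.abs.continuousOn)
    exact ⟨s, hs, fun t ht => hs' ht⟩
  choose sp hsp1 hsp2 using hsup
  set Sf : 𝔅 → Λ → ℝ := fun β ll => |(PF β ll).eval (sp (PF β ll))| with hSf
  set Mf : 𝔅 → Λ → ℝ := fun β ll =>
    Real.log (min (max (Sf β ll) η) ((M : ℝ) ^ D * η)) with hMf
  have hMD : (1 : ℝ) ≤ (M : ℝ) ^ D := one_le_pow₀ hMr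
  have hmin : ∀ β ll, 0 < min (max (Sf β ll) η) ((M : ℝ) ^ D * η) := fun β ll =>
    lt_min (lt_max_of_lt_right hη) (by positivity)
  -- time in the unit interval
  have htI : ∀ ω, ((T (x ω) : ℝ) / M) ∈ Set.Icc (0 : ℝ) 1 := by
    intro ω
    refine ⟨by positivity, ?_⟩
    rw [div_le_one (by linarith only [hMr])]
    exact_mod_cast (hT ω).le
  -- one step
  have step : ∀ i < N, Ex Q (fun u => h (b u.1) (y (i + 1) u.2)) ≤
      Ex Q (fun u => h (b u.1) (y i u.2)) +
      2 * D * ((Real.log M - CH Q (fun u => T (y i u.2) % M)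
        (fun u => (l i u.2, (b u.1, ())))) + C₀) + 2 * Real.log 2 := by
    intro i hi
    refine hstp (W × V) Ξ Λ 𝔅 Unit Bool Q M (fun u => y i u.2) (fun u => y (i + 1) u.2)
      (fun u => l i u.2) (fun u => b u.1) (fun _ => ()) (fun u => T (y i u.2) % M) h Mf
      (fun β ll j => if j = true then PF β ll else Polynomial.C η) (Real.log 2) hQl
      (fun u => Nat.mod_lt _ hM0) ?_ ?_ ?_
    · intro u hu
      obtain ⟨hu1, hu2, hu3⟩ := hpos u hu
      by_cases hS : η ≤ Sf (b u.1) (l i u.2)
      · refine ⟨true, ?_, ⟨sp (PF (b u.1) (l i u.2)), hsp1 _, ?_⟩, ?_⟩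
        · simp only [if_true]
          exact hdeg _ _
        · simp only [if_true, hMf]
          rw [Real.exp_log (hmin _ _)]
          refine (min_le_left _ _).trans ?_
          rw [max_eq_left hS]
        · intro u' hu' hb hl
          obtain ⟨hu1', hu2', hu3'⟩ := hpos u' hu'
          simp only [if_true]
          have h1 : 0 < p (o i u'.2) := (hch.marg i hi).pos hr0 hu2'
          have h2 := hnear u'.1 hu1' (o i u'.2) h1
          rw [hch.start u'.2 hu2' i hi, hch.line u'.2 hu2' i hi] at h2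
          have h3 : T (y i u'.2) % M = T (y i u'.2) := by
            refine Nat.mod_eq_of_lt ?_
            rw [← hch.start u'.2 hu2' i hi]
            exact hT _
          have hb' : b u'.1 = b u.1 := hb
          have hl' : l i u'.2 = l i u.2 := hl
          rw [h3, ← hb', ← hl', Real.exp_add, Real.exp_log (by norm_num : (0 : ℝ) < 2)]
          simp only [hh]
          rw [Real.exp_log (hmax _ _), mul_comm]
          refine two_max ?_
          rw [abs_sub_comm] at h2
          have h4 := abs_sub_abs_le_abs_sub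
            ((PF (b u'.1) (l i u'.2)).eval ((T (y i u'.2) : ℝ) / M)) (F (b u'.1) (y i u'.2))
          linarith only [h2, h4]
      · push Not at hS
        refine ⟨false, ?_, ⟨0, by constructor <;> norm_num, ?_⟩, ?_⟩
        · simp
        · simp only [hMf]
          rw [Real.exp_log (hmin _ _), max_eq_right hS.le]
          simp only [Bool.false_eq_true, if_false, Polynomial.eval_C]
          rw [abs_of_pos hη]
          exact min_le_left _ _
        · intro u' _ _ _
          simp only [Bool.false_eq_true, if_false, Polynomial.eval_C]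
          rw [abs_of_pos hη, Real.exp_add, Real.exp_log (by norm_num : (0 : ℝ) < 2)]
          simp only [hh]
          rw [Real.exp_log (hmax _ _)]
          have : η ≤ max |F (b u'.1) (y i u'.2)| η := le_max_right _ _
          linarith only [hη, this]
    · intro u hu
      simp only [hMf]
      have h1 : Real.log (min (max (Sf (b u.1) (l i u.2)) η) ((M : ℝ) ^ D * η)) ≤
          Real.log ((M : ℝ) ^ D * η) := Real.log_le_log (hmin _ _) (min_le_right _ _)
      rw [Real.log_mul (by positivity) hη.ne', Real.log_pow] at h1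
      have h2 := hhη (b u.1) (y i u.2)
      linarith only [hlog2, h1, h2]
    · intro u hu
      obtain ⟨hu1, hu2, hu3⟩ := hpos u hu
      have h1 : 0 < p (o' i u.2) := (hch.marg' i hi).pos hr0 hu2
      have h2 := hnear u.1 hu1 (o' i u.2) h1
      have h3 := hcap u.1 hu1 (o' i u.2) h1
      have h5 := htI (o' i u.2)
      rw [hch.stop u.2 hu2 i hi] at h2 h3 h5
      rw [hch.line' u.2 hu2 i hi] at h2
      have h6 := hsp2 (PF (b u.1) (l i u.2)) _ h5
      have h4 := abs_sub_abs_le_abs_sub (F (b u.1) (y (i + 1) u.2))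
        ((PF (b u.1) (l i u.2)).eval ((T (y (i + 1) u.2) : ℝ) / M))
      have h7 : |F (b u.1) (y (i + 1) u.2)| ≤ 2 * max (Sf (b u.1) (l i u.2)) η := by
        refine two_max ?_
        simp only [hSf]
        linarith only [h2, h6, h4]
      have h8 : η ≤ (M : ℝ) ^ D * η := by nlinarith only [hη, hMD]
      have h9 : max |F (b u.1) (y (i + 1) u.2)| η ≤
          2 * min (max (Sf (b u.1) (l i u.2)) η) ((M : ℝ) ^ D * η) := by
        have h10 : (2 : ℝ) * min (max (Sf (b u.1) (l i u.2)) η) ((M : ℝ) ^ D * η) =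
            min (2 * max (Sf (b u.1) (l i u.2)) η) (2 * ((M : ℝ) ^ D * η)) :=
          mul_min_of_nonneg _ _ (by norm_num)
        rw [h10]
        have h11 : η ≤ max (Sf (b u.1) (l i u.2)) η := le_max_right _ _
        refine max_le (le_min h7 ?_) (le_min ?_ ?_) <;> linarith
      simp only [hh, hMf]
      have h12 := Real.log_le_log (hmax _ _) h9
      rw [Real.log_mul (by norm_num) (hmin _ _).ne'] at h12
      linarith only [h12]
  -- conditional independence
  have c1 : ∀ i < N, CI Q (fun u => b u.1) (fun u => l i u.2) (fun u => y i u.2) := by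
    intro i hi
    have h1 : CI r (y 0) (l i) (y i) := by
      refine CI_of_le hr0 ?_
      rw [← hch.ci1 i hi]
      refine CH_mono_cond hr0 ?_
      intro ω ω' _ _ h
      simp only [Prod.mk.injEq] at h ⊢
      tauto
    have h2 : CI Q (fun u => y 0 u.2) (fun u => l i u.2) (fun u => y i u.2) := h1.marg m2
    have h3 : CI Q (fun u => b u.1) (fun u => (y i u.2, l i u.2)) (fun u => y 0 u.2) :=
      ci_label hq hch.isLaw hZ b (fun v => (y i v, l i v))
    have h4 : CI Q (fun u => b u.1) (fun u => l i u.2) (fun u => (y 0 u.2, y i u.2)) :=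
      (h3.weak hQ0).congr hQ0 (by
        intro u u' _ _ e
        simp only [Prod.mk.injEq] at e ⊢
        tauto) (by
        intro u u' _ _ e
        simp only [Prod.mk.injEq] at e ⊢
        tauto)
    have h5 := (h2.symm hQ0).chain hQ0 (h4.symm hQ0)
    exact (h5.mono_right hQ0 (B' := fun u => b u.1) (by
      intro u u' _ _ e
      exact (Prod.ext_iff.mp (Prod.ext_iff.mp e).1).2)).symm hQ0
  have c2 : ∀ i < N, CI Q (fun u => b u.1) (fun u => y (i + 1) u.2) (fun u => l i u.2) := by
    intro i hi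
    have h1 : CI r (y 0) (y (i + 1)) (l i) := by
      refine CI_of_le hr0 ?_
      rw [← hch.ci2 i hi]
      refine CH_mono_cond hr0 ?_
      intro ω ω' _ _ h
      simp only [Prod.mk.injEq] at h ⊢
      tauto
    have h2 : CI Q (fun u => y 0 u.2) (fun u => y (i + 1) u.2) (fun u => l i u.2) := h1.marg m2
    have h3 : CI Q (fun u => b u.1) (fun u => (l i u.2, y (i + 1) u.2)) (fun u => y 0 u.2) :=
      ci_label hq hch.isLaw hZ b (fun v => (l i v, y (i + 1) v))
    have h4 : CI Q (fun u => b u.1) (fun u => y (i + 1) u.2) (fun u => (y 0 u.2, l i u.2)) :=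
      (h3.weak hQ0).congr hQ0 (by
        intro u u' _ _ e
        simp only [Prod.mk.injEq] at e ⊢
        tauto) (by
        intro u u' _ _ e
        simp only [Prod.mk.injEq] at e ⊢
        tauto)
    have h5 := (h2.symm hQ0).chain hQ0 (h4.symm hQ0)
    exact (h5.mono_right hQ0 (B' := fun u => b u.1) (by
      intro u u' _ _ e
      exact (Prod.ext_iff.mp (Prod.ext_iff.mp e).1).2)).symm hQ0
  -- the budget
  have hbui := bui_thm (W × V) Ξ Λ 𝔅 Unit ℕ Q N (fun i u => y i u.2) (fun i u => l i u.2)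
    (fun u => b u.1) (fun _ => ()) (fun _ ξ => T ξ % M) hQl
    (by
      intro i hi
      have h1 := c1 i hi
      unfold CI at h1
      have e1 : CH Q (fun u => b u.1) (fun u => (y i u.2, (l i u.2, ()))) =
          CH Q (fun u => b u.1) (fun u => (l i u.2, y i u.2)) := by
        refine CH_congr hQ0 (fun _ _ _ _ h => (Prod.ext_iff.mp h).1)
          (fun _ _ _ _ h => (Prod.ext_iff.mp h).1) ?_ ?_ <;>
        · intro ω ω' _ _ h
          simp only [Prod.mk.injEq] at h ⊢
          tauto
      have e2 : CH Q (fun u => b u.1) (fun u => (y i u.2, ())) =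
          CH Q (fun u => b u.1) (fun u => y i u.2) := by
        refine CH_congr hQ0 (fun _ _ _ _ h => (Prod.ext_iff.mp h).1)
          (fun _ _ _ _ h => (Prod.ext_iff.mp h).1) ?_ ?_
        · intro ω ω' _ _ h
          exact (Prod.ext_iff.mp h).1
        · intro ω ω' _ _ h
          exact Prod.ext h rfl
      rw [e1, e2, h1])
    (by
      intro i hi
      have h1 := c2 i hi
      unfold CI at h1
      have e1 : CH Q (fun u => b u.1) (fun u => (l i u.2, (y (i + 1) u.2, ()))) =
          CH Q (fun u => b u.1) (fun u => (y (i + 1) u.2, l i u.2)) := by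
        refine CH_congr hQ0 (fun _ _ _ _ h => (Prod.ext_iff.mp h).1)
          (fun _ _ _ _ h => (Prod.ext_iff.mp h).1) ?_ ?_ <;>
        · intro ω ω' _ _ h
          simp only [Prod.mk.injEq] at h ⊢
          tauto
      have e2 : CH Q (fun u => b u.1) (fun u => (l i u.2, ())) =
          CH Q (fun u => b u.1) (fun u => l i u.2) := by
        refine CH_congr hQ0 (fun _ _ _ _ h => (Prod.ext_iff.mp h).1)
          (fun _ _ _ _ h => (Prod.ext_iff.mp h).1) ?_ ?_
        · intro ω ω' _ _ h
          exact (Prod.ext_iff.mp h).1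
        · intro ω ω' _ _ h
          exact Prod.ext h rfl
      rw [e1, e2, h1])
  -- deficits of the times
  have htm : ∀ i < N, Real.log M - CH Q (fun u => T (y i u.2) % M) (fun u => (l i u.2, ())) ≤
      e₁ := by
    intro i hi
    have h1 : CH r (fun v => T (x (o i v))) (fun v => lam (o i v)) =
        CH p (fun ω => T (x ω)) lam := (hch.marg i hi).CH (fun ω => T (x ω)) lam
    have h2 : CH Q (fun u => T (x (o i u.2))) (fun u => lam (o i u.2)) =
        CH r (fun v => T (x (o i v))) (fun v => lam (o i v)) :=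
      m2.CH (fun v => T (x (o i v))) (fun v => lam (o i v))
    have h3 : CH Q (fun u => T (y i u.2) % M) (fun u => (l i u.2, ())) =
        CH Q (fun u => T (x (o i u.2))) (fun u => lam (o i u.2)) := by
      have h4 : ∀ u, 0 < Q u → T (y i u.2) % M = T (x (o i u.2)) := by
        intro u hu
        rw [← hch.start u.2 (hpos u hu).2.1 i hi]
        exact Nat.mod_eq_of_lt (hT _)
      have h5 : ∀ u, 0 < Q u → lam (o i u.2) = l i u.2 := fun u hu =>
        hch.line u.2 (hpos u hu).2.1 i hi
      refine CH_congr hQ0 ?_ ?_ ?_ ?_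
      · intro u u' a a' e
        have e1 := (Prod.ext_iff.mp e).1
        simp only at e1 ⊢
        rw [← h4 u a, ← h4 u' a']
        exact e1
      · intro u u' a a' e
        have e1 := (Prod.ext_iff.mp e).1
        simp only at e1 ⊢
        rw [h4 u a, h4 u' a']
        exact e1
      · intro u u' a a' e
        have e1 := (Prod.ext_iff.mp e).1
        simp only at e1 ⊢
        rw [h5 u a, h5 u' a']
        exact e1
      · intro u u' a a' e
        simp only at e
        rw [h5 u a, h5 u' a'] at e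
        exact Prod.ext e rfl
    rw [h3, h2, h1]
    exact htime
  -- the start
  have hst : Ex Q (fun u => h (b u.1) (y 0 u.2)) ≤ Ex q g := by
    rw [← m1.ex g]
    refine Ex_mono hQ0 fun u hu => ?_
    obtain ⟨hu1, hu2, hu3⟩ := hpos u hu
    obtain ⟨ω, hω, hxω⟩ := supp_of_law (hch.cell 0 (Nat.zero_le N)) hr0 hu2
    have h1 := hg u.1 hu1 ω hω (by rw [hxω, hu3])
    rw [hxω] at h1
    exact h1
  -- the mutual information of the label and the first point
  have hI0 : H Q (fun u => b u.1) = H q b := m1.H b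
  have hI1 : CH Q (fun u => b u.1) (fun u => (y 0 u.2, ())) = CH q b σ := by
    have h1 : CH Q (fun u => b u.1) (fun u => (σ u.1, y 0 u.2)) = CH q b σ :=
      CH_glue_fst hq0 hr0 hZ b (Y := σ) (y 0) (fun _ _ _ _ h => h)
    rw [← h1]
    refine CH_congr hQ0 (fun _ _ _ _ h => (Prod.ext_iff.mp h).1)
      (fun _ _ _ _ h => (Prod.ext_iff.mp h).1) ?_ ?_
    · intro u u' a a' e
      have e1 := (Prod.ext_iff.mp e).1
      simp only at e1
      refine Prod.ext ?_ e1
      change σ u.1 = σ u'.1
      rw [(hpos u a).2.2, (hpos u' a').2.2, e1]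
    · intro u u' a a' e
      exact Prod.ext (Prod.ext_iff.mp e).2 rfl
  have hI2 : CH Q (fun u => b u.1) (fun u => (y N u.2, ())) ≤ H Q (fun u => b u.1) :=
    CH_le_H hQl _ _
  have hIpos : 0 ≤ H q b - CH q b σ := by
    have := CH_le_H hq b σ
    linarith only [this]
  -- the sum of the steps
  have hsum : Ex Q (fun u => h (b u.1) (y N u.2)) ≤ Ex q g +
      (2 * D * ((H q b - CH q b σ) + N * (e₁ + C₀)) + N * (2 * Real.log 2)) := by
    have h1 : ∀ i ∈ range N, Ex Q (fun u => h (b u.1) (y (i + 1) u.2)) -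
        Ex Q (fun u => h (b u.1) (y i u.2)) ≤
        2 * D * (CH Q (fun u => T (y i u.2) % M) (fun u => (l i u.2, ())) -
          CH Q (fun u => T (y i u.2) % M) (fun u => (l i u.2, (b u.1, ())))) +
          (2 * D * (e₁ + C₀) + 2 * Real.log 2) := by
      intro i hi
      have hi' := Finset.mem_range.mp hi
      have a1 := step i hi'
      have a2 := htm i hi'
      have a3 : (0 : ℝ) ≤ 2 * D := by positivity
      have a4 := mul_le_mul_of_nonneg_left a2 a3
      linarith only [a1, a4]
    have hs := Finset.sum_le_sum h1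
    rw [Finset.sum_range_sub (fun i => Ex Q (fun u => h (b u.1) (y i u.2))),
      Finset.sum_add_distrib, ← Finset.mul_sum, Finset.sum_const, Finset.card_range,
      nsmul_eq_mul] at hs
    have a3 : (0 : ℝ) ≤ 2 * D := by positivity
    have hb' := mul_le_mul_of_nonneg_left hbui a3
    have hb'' : CH Q (fun u => b u.1) (fun u => (y N u.2, ())) -
        CH Q (fun u => b u.1) (fun u => (y 0 u.2, ())) ≤ H q b - CH q b σ := by
      rw [hI1]
      linarith only [hI0, hI2]
    have hb3 := mul_le_mul_of_nonneg_left hb'' a3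

    linarith only [hst, hs, hb', hb3]
  -- the bound
  set Bd : ℝ := 4 * (Ex q g - Real.log η) + C * ((H q b - CH q b σ) + N * (e₁ + 1)) with hBd
  set E₀ : ℝ := (Ex q g - Real.log η) +
      (2 * D * ((H q b - CH q b σ) + N * (e₁ + C₀)) + N * (2 * Real.log 2)) with hE₀
  have hN0 : (0 : ℝ) ≤ N := Nat.cast_nonneg N
  have hBE : 4 * E₀ ≤ Bd := by
    have t1 : (8 * D : ℝ) * (H q b - CH q b σ) ≤ C * (H q b - CH q b σ) := by
      refine mul_le_mul_of_nonneg_right ?_ hIpos
      rw [hC]
      nlinarith only [hlog2, hD0, hC₀, mul_nonneg hD0 hC₀]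
    have t2 : (8 * D : ℝ) * (N * e₁) ≤ C * (N * e₁) := by
      refine mul_le_mul_of_nonneg_right ?_ (by positivity)
      rw [hC]
      nlinarith only [hlog2, hD0, hC₀, mul_nonneg hD0 hC₀]
    have t3 : (8 * D * C₀ + 8 * Real.log 2) * (N : ℝ) ≤ C * N := by
      refine mul_le_mul_of_nonneg_right ?_ hN0
      rw [hC]
      nlinarith only [mul_nonneg hD0 hC₀]
    rw [hE₀, hBd]
    nlinarith only [t1, t2, t3, t1, t2, t3]
  have hXE : Ex Q (fun u => h (b u.1) (y N u.2) - Real.log η) ≤ E₀ := by
    rw [Ex_sub, Ex_const hQl.sum_one]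
    rw [hE₀]
    linarith only [hsum]
  have hmk := markov4 hQl (fun u => h (b u.1) (y N u.2) - Real.log η)
    (fun u => sub_nonneg.mpr (hhη _ _)) hXE hBE
  -- contradiction
  by_contra hcon
  push Not at hcon
  set A : Set (W × Ξ) := {c | c.1 ∈ 𝒢 ∧ |F (b c.1) c.2| ≤ η * Real.exp Bd} with hA
  have hprod : ∑ u, Q u * Pr Q {u' | (u.1, y N u'.2) ∈ A} ≤ Real.exp (-(2 * e₄ + C)) := by
    have h1 : ∀ u, Q u * Pr Q {u' | (u.1, y N u'.2) ∈ A} ≤
        Q u * Real.exp (-(2 * e₄ + C)) := by
      intro u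
      rcases (hQ0 u).eq_or_lt with h0 | h0
      · rw [← h0, zero_mul, zero_mul]
      · refine mul_le_mul_of_nonneg_left ?_ h0.le
        by_cases hu : u.1 ∈ 𝒢
        · have h2 := hcon u.1 hu (hpos u h0).1
          refine le_trans (le_of_eq ?_) h2.le
          rw [prEx, prEx]
          have h3 := ex_of_law (hch.cell N le_rfl)
            (fun ξ => ({ξ | |F (b u.1) ξ| ≤ η * Real.exp Bd} : Set Ξ).indicator
              (fun _ => (1 : ℝ)) ξ)
          have h4 := m2.ex (fun v => ({ξ | |F (b u.1) ξ| ≤ η * Real.exp Bd} : Set Ξ).indicator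
              (fun _ => (1 : ℝ)) (y N v))
          unfold Ex at h4
          have h5 : ∀ u', Q u' * ({u' | (u.1, y N u'.2) ∈ A} : Set (W × V)).indicator
              (fun _ => (1 : ℝ)) u' = Q u' *
              ({ξ | |F (b u.1) ξ| ≤ η * Real.exp Bd} : Set Ξ).indicator
              (fun _ => (1 : ℝ)) (y N u'.2) := by
            intro u'
            congr 1
            by_cases h6 : |F (b u.1) (y N u'.2)| ≤ η * Real.exp Bd
            · rw [Set.indicator_of_mem (show u' ∈ ({u' | (u.1, y N u'.2) ∈ A} : Set (W × V))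
                from ⟨hu, h6⟩), Set.indicator_of_mem (show y N u'.2 ∈
                ({ξ | |F (b u.1) ξ| ≤ η * Real.exp Bd} : Set Ξ) from h6)]
            · rw [Set.indicator_of_notMem (show u' ∉ ({u' | (u.1, y N u'.2) ∈ A} : Set (W × V))
                from fun h7 => h6 h7.2), Set.indicator_of_notMem (show y N u'.2 ∉
                ({ξ | |F (b u.1) ξ| ≤ η * Real.exp Bd} : Set Ξ) from h6)]
          rw [Finset.sum_congr rfl fun u' _ => h5 u', h4, h3]
          refine Finset.sum_congr rfl fun ω _ => ?_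
          congr 1
        · have h2 : Pr Q {u' | (u.1, y N u'.2) ∈ A} = 0 := by
            rw [prE]
            refine Finset.sum_eq_zero fun u' _ => ?_
            rw [if_neg]
            intro h3
            exact hu h3.1
          rw [h2]
          positivity
    refine (Finset.sum_le_sum fun u _ => h1 u).trans ?_
    rw [← Finset.sum_mul, hQl.sum_one, one_mul]
  have hev := prod_event hQl (fun u => y N u.2) (fun u => u.1) A (Real.exp_pos _) hprod
  rw [one_div, ← Real.exp_neg, neg_neg, Real.log_exp] at hev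
  -- the mutual information of the label and the last point
  have hmi : H Q (fun u => y N u.2) - CH Q (fun u => y N u.2) (fun u => u.1) ≤ e₄ := by
    have h1 : H Q (fun u => y N u.2) = H p x := by
      rw [m2.H (y N)]
      exact H_eq_of_lawS3 (hch.cell N le_rfl)
    have h2 : CH Q (fun u => y N u.2) (fun u => (y 0 u.2, u.1)) = CH r (y N) (y 0) :=
      CH_glue_snd hq0 hr0 hZ (y N) (Y := y 0) (fun w => w)
        (fun _ _ _ _ h => congrArg ζ h)
    have h3 : CH Q (fun u => y N u.2) (fun u => (y 0 u.2, u.1)) ≤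
        CH Q (fun u => y N u.2) (fun u => u.1) :=
      CH_mono_cond hQ0 (fun _ _ _ _ h => (Prod.ext_iff.mp h).2)
    have h4 := hmix V r o o' l y hch
    linarith only [h1, h2, h3, h4]
  -- the probability of the event
  have hPA : 5 / 8 ≤ Pr Q {u | (u.1, y N u.2) ∈ A} := by
    have h1 : (1 : ℝ) ≤ Pr Q {u | (u.1, y N u.2) ∈ A} + Pr Q {u | u.1 ∈ 𝒢ᶜ} +
        Pr Q {u | Bd < h (b u.1) (y N u.2) - Real.log η} := by
      refine pr_cover hQl fun u => ?_
      by_cases h2 : u.1 ∈ 𝒢
      · by_cases h3 : Bd < h (b u.1) (y N u.2) - Real.log η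
        · exact Or.inr (Or.inr h3)
        · push Not at h3
          refine Or.inl ⟨h2, ?_⟩
          have h7 : max |F (b u.1) (y N u.2)| η ≤ Real.exp (Real.log η + Bd) := by
            rw [← Real.log_le_iff_le_exp (hmax _ _)]
            have : h (b u.1) (y N u.2) ≤ Real.log η + Bd := by linarith only [h3]
            exact this
          rw [Real.exp_add, Real.exp_log hη] at h7
          exact (le_max_left _ _).trans h7
      · exact Or.inr (Or.inl h2)
    have h2 : Pr Q {u | u.1 ∈ 𝒢ᶜ} = Pr q 𝒢ᶜ := by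
      rw [prEx, prEx]
      have h3 := m1.ex (fun w => (𝒢ᶜ).indicator (fun _ => (1 : ℝ)) w)
      unfold Ex at h3
      rw [← h3]
      rfl
    rw [h2] at h1
    linarith only [h𝒢, hmk, h1]
  have hfin := mul_le_mul_of_nonneg_right hPA (show 0 ≤ 2 * e₄ + C by linarith only [hC2, he₄])
  have hl2 : Real.log 2 ≤ 1 := by
    have := Real.log_le_sub_one_of_pos (show (0 : ℝ) < 2 by norm_num)
    linarith only [hC2, he₄, hev, hmi, hfin, this]
  linarith only [hC2, he₄, hev, hmi, hfin, hl2]

end Pool.Agent.H81.KBX
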