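import Pool.Agent.H37.KBX.Stmts
import Pool.Agent.H87.KBX.Conti
import Pool.Agent.H67.KBX.CRO
import Pool.Agent.H81.KBX.CHR

/-!
# Row JUN: the degree drop for the coarse leaf
-/

set_option autoImplicit false

namespace Pool.Agent.H81.KBX

open Finset Real
open Pool.Agent.H49.Ent Pool.Agent.H32.Dense Pool.STK Pool.KAF Pool.KAL Pool.KS3 Pool.KBX

section coarse

/-- Nonconcentration is inherited by coarser points. -/
lemma ncf_coarse {n : ℕ} {Ω Λ Ξ Ξ' : Type} [Fintype Ω] {p : Ω → ℝ} (hp : ∀ ω, 0 ≤ p ω)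
    {lam : Ω → Λ} {x : Ω → Ξ} {B : Λ → Option (Fin n) → ℝ} {δ ε : ℝ} (hε : 0 ≤ ε)
    (h : NCF p lam x B δ (fun _ => ε)) (f : Ξ → Ξ') :
    NCF p lam (fun ω => f (x ω)) B δ (fun _ => ε) := by
  classical
  intro ω hω u hu
  have key : ∀ S : Ω → Prop, ∑ ω', (if f (x ω') = f (x ω) ∧ S ω' then p ω' else 0) =
      ∑ ξ ∈ univ.image x, if f ξ = f (x ω) then
        ∑ ω', (if x ω' = ξ ∧ S ω' then p ω' else 0) else 0 := by
    intro S
    have e1 : ∀ ω', (if f (x ω') = f (x ω) ∧ S ω' then p ω' else 0) =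
        ∑ ξ ∈ univ.image x, if f ξ = f (x ω) then (if x ω' = ξ ∧ S ω' then p ω' else 0)
          else 0 := by
      intro ω'
      rw [Finset.sum_eq_single (x ω')]
      · by_cases h1 : f (x ω') = f (x ω) <;> by_cases h2 : S ω' <;> simp [h1, h2]
      · intro ξ _ hξ
        have h1 : ¬ (x ω' = ξ ∧ S ω') := fun h2 => hξ h2.1.symm
        rw [if_neg h1]
        simp
      · intro h1
        exact absurd (Finset.mem_image_of_mem x (Finset.mem_univ ω')) h1
    rw [Finset.sum_congr rfl fun ω' _ => e1 ω', Finset.sum_comm]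
    refine Finset.sum_congr rfl fun ξ _ => ?_
    split_ifs
    · rfl
    · simp
  have e2 := key (fun ω' => |∑ i, u i * B (lam ω') (some i)| ≤ δ)
  have e3 : law p (fun ω => f (x ω)) (f (x ω)) =
      ∑ ξ ∈ univ.image x, if f ξ = f (x ω) then law p x ξ else 0 := by
    have e4 := key (fun _ => True)
    simp only [and_true] at e4
    unfold law
    exact e4
  have goal : (∑ ω', (if f (x ω') = f (x ω) ∧ |∑ i, u i * B (lam ω') (some i)| ≤ δ then p ω'
      else 0)) ≤ ε * law p (fun ω => f (x ω)) (f (x ω)) := by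
    rw [e2, e3, Finset.mul_sum]
    refine Finset.sum_le_sum fun ξ _ => ?_
    split_ifs with h1
    · by_cases h2 : ∃ ω', 0 < p ω' ∧ x ω' = ξ
      · obtain ⟨ω', hω', rfl⟩ := h2
        exact h ω' hω' u hu
      · have h3 : ∑ ω', (if x ω' = ξ ∧ |∑ i, u i * B (lam ω') (some i)| ≤ δ then p ω' else 0) =
            0 := by
          refine Finset.sum_eq_zero fun ω' _ => ?_
          by_cases h4 : x ω' = ξ ∧ |∑ i, u i * B (lam ω') (some i)| ≤ δ
          · rw [if_pos h4]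
            exact le_antisymm (not_lt.1 fun h5 => h2 ⟨ω', h5, h4.1⟩) (hp ω')
          · rw [if_neg h4]
        rw [h3]
        exact mul_nonneg hε (law_nonneg hp _ _)
    · rw [mul_zero]
  refine le_trans (le_of_eq ?_) goal
  exact Finset.sum_congr rfl fun ω' _ => by congr

/-- Rounding to `L'` digits. -/
lemma qd (m s L' L : ℕ) (hL : L = L' + s) :
    ((m / 2 ^ s : ℕ) : ℝ) / 2 ^ L' ≤ (m : ℝ) / 2 ^ L ∧
      (m : ℝ) / 2 ^ L ≤ ((m / 2 ^ s : ℕ) : ℝ) / 2 ^ L' + 1 / 2 ^ L' := by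
  have h0 := Nat.div_add_mod m (2 ^ s)
  have h1 := Nat.mod_lt m (show 0 < 2 ^ s by positivity)
  have h2 : (m : ℝ) = 2 ^ s * ((m / 2 ^ s : ℕ) : ℝ) + ((m % 2 ^ s : ℕ) : ℝ) := by
    exact_mod_cast h0.symm
  have h3 : ((m % 2 ^ s : ℕ) : ℝ) ≤ 2 ^ s := by exact_mod_cast h1.le
  have h4 : (0 : ℝ) ≤ ((m % 2 ^ s : ℕ) : ℝ) := Nat.cast_nonneg _
  have h5 : (2 : ℝ) ^ L = 2 ^ s * 2 ^ L' := by rw [hL, pow_add, mul_comm]
  have hs : (0 : ℝ) < 2 ^ s := by positivity
  have hL' : (0 : ℝ) < 2 ^ L' := by positivity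
  constructor
  · rw [h5, div_le_div_iff₀ hL' (by positivity)]
    nlinarith only [hL', h2]
  · rw [← add_div, h5, div_le_div_iff₀ (by positivity) hL']
    have : (m : ℝ) ≤ (((m / 2 ^ s : ℕ) : ℝ) + 1) * 2 ^ s := by linarith only [h2, h3]
    nlinarith only [h2, hL', h3]

lemma qd' (m s L' L : ℕ) (hL : L = L' + s) :
    |(m : ℝ) / 2 ^ L - ((m / 2 ^ s : ℕ) : ℝ) / 2 ^ L'| ≤ 1 / 2 ^ L' := by
  obtain ⟨h1, h2⟩ := qd m s L' L hL
  rw [abs_le]
  have : (0 : ℝ) ≤ 1 / 2 ^ L' := by positivity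
  constructor <;> linarith

lemma div_lt_pow {m s L' L : ℕ} (hL : L = L' + s) (h : m < 2 ^ L) : m / 2 ^ s < 2 ^ L' := by
  rw [Nat.div_lt_iff_lt_mul (by positivity), ← pow_add, ← hL]
  exact h

/-- The cells of the coarse points. -/
lemma cel_coarse {n : ℕ} {Ξ : Type} (pos : Ξ → Option (Fin n) → ℕ) (ξ : Ξ) {s L' L u : ℕ}
    (hL : L = L' + s) (hu : u ≤ L') :
    cel (2 ^ (L' - u)) (fun c : Option (Fin n) → ℕ => c) (fun o => pos ξ o / 2 ^ s) =
      cel (2 ^ (L - u)) pos ξ := by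
  funext o
  simp only [cel]
  rw [Nat.div_div_eq_div_mul, ← pow_add]
  congr 2
  omega

lemma crn_coarse {n : ℕ} (c : Option (Fin n) → ℕ) {s L' L u : ℕ}
    (hL : L = L' + s) (hu : u ≤ L') :
    crn (n := n) (2 ^ L') (2 ^ (L' - u)) c = crn (2 ^ L) (2 ^ (L - u)) c := by
  funext i
  simp only [crn]
  have e1 : (2 : ℝ) ^ L' = 2 ^ (L' - u) * 2 ^ u := by rw [← pow_add]; congr 1; omega
  have e2 : (2 : ℝ) ^ L = 2 ^ (L - u) * 2 ^ u := by rw [← pow_add]; congr 1; omega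
  push_cast
  rw [e1, e2]
  field_simp

end coarse

open Classical in
theorem jun_thm (hCON : CONStmt) : JUNStmt := by
  intro n D j k₀ C₀ C₁ hcho hj hC₀ hC₁
  have hn0 : (0 : ℝ) ≤ n := Nat.cast_nonneg n
  set C₂ : ℝ := 3 * C₀ + (n + 1) * C₁ with hC₂
  have hC₂0 : 3 * C₀ + C₁ + n * C₁ = C₂ := by rw [hC₂]; ring
  have hnC : 0 ≤ n * C₁ := by positivity
  obtain ⟨Cf, hCf, hfin⟩ := fin_thm n D j k₀ C₂ hcho hj (by linarith only [hC₀, hC₁, hnC])
  obtain ⟨Cc, hCc, hcon⟩ := hCON n 1 C₀ hC₀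
  refine ⟨Cf * (1 + Cc), by positivity, ?_⟩
  intro Ω Λ Ξ _ p lam x T pos A B i₀ G L L' u κ γ N δ ε e₁ e₃ hLF hTC hL' hju hreg hnear hdet
  obtain ⟨s, hs⟩ : ∃ s, L = L' + s := ⟨L - L', by omega⟩
  have hu : u ≤ L' := le_trans (Nat.le_mul_of_pos_left u (by omega)) hju
  have hleaf := hLF.leaf
  have hp := hleaf.isLaw
  have hp0 := hp.nonneg
  have hM : ((2 ^ L : ℕ) : ℝ) = 2 ^ L := by push_cast; rfl
  have hM' : ((2 ^ L' : ℕ) : ℝ) = 2 ^ L' := by push_cast; rfl
  have hL'0 : (0 : ℝ) < 2 ^ L' := by positivity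
  have hLL : (2 : ℝ) ^ L' ≤ 2 ^ L := pow_le_pow_right₀ (by norm_num) hL'
  have hinv : C₀ / 2 ^ L ≤ C₀ / 2 ^ L' := div_le_div_of_nonneg_left (by linarith only [hC₀]) hL'0 hLL
  have hκ0 : (1 : ℝ) ≤ κ := by exact_mod_cast hLF.κ_pos
  have hγ0 : (0 : ℝ) ≤ γ := Nat.cast_nonneg γ
  have hL0 : (0 : ℝ) ≤ L := Nat.cast_nonneg L
  have hL'R : (L' : ℝ) ≤ L := by exact_mod_cast hL'
  have hε := hLF.ε_nonneg
  have he₁0 := hLF.e₁_nonneg
  have he₃0 := hLF.e₃_nonneg
  have hW : 1 ≤ W0 L κ γ ε := by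
    unfold W0
    have h1 : 0 ≤ (L : ℝ) / κ := by positivity
    have h2 : 0 ≤ ε * L := by positivity
    linarith only [hκ0, h1, h2]
  -- the coarse leaf
  obtain ⟨f, hf⟩ : ∃ f : Ξ → Option (Fin n) → ℕ, f = fun ξ o => pos ξ o / 2 ^ s := ⟨_, rfl⟩
  have hfo : ∀ ξ o, f ξ o = pos ξ o / 2 ^ s := fun ξ o => by rw [hf]
  have hTf : ∀ ω, f (x ω) (some i₀) = T (x ω) / 2 ^ s := fun ω => by
    rw [hfo, (hTC ω).1]
  have hleaf' : Leaf n (2 ^ L') C₂ p lam (fun ω => f (x ω)) (fun c => c (some i₀))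
      (fun c => c) A B := by
    refine ⟨hp, ?_, ?_, ?_, fun ω i => (hleaf.A_le ω i).trans (by linarith only [hC₀, hC₁, hnC]),
      fun ω i => (hleaf.B_le ω i).trans (by linarith only [hC₀, hC₁, hnC])⟩
    · intro ω
      change f (x ω) (some i₀) < 2 ^ L'
      rw [hTf]
      exact div_lt_pow hs (hleaf.T_lt ω)
    · intro ω i
      change f (x ω) i < 2 ^ L'
      rw [hfo]
      exact div_lt_pow hs (hleaf.pos_lt ω i)
    · intro ω i
      change |((f (x ω) i : ℕ) : ℝ) / ((2 ^ L' : ℕ) : ℝ) - (A (lam ω) i +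
        ((f (x ω) (some i₀) : ℕ) : ℝ) / ((2 ^ L' : ℕ) : ℝ) * B (lam ω) i)| ≤
        C₂ / ((2 ^ L' : ℕ) : ℝ)
      rw [hTf, hfo, hM']
      have h1 := hleaf.near ω i
      rw [hM] at h1
      have h2 := qd' (pos (x ω) i) s L' L hs
      have h3 := qd' (T (x ω)) s L' L hs
      have h4 := hleaf.B_le ω i
      have h5 : |((T (x ω) : ℝ) / 2 ^ L - ((T (x ω) / 2 ^ s : ℕ) : ℝ) / 2 ^ L') * B (lam ω) i| ≤
          1 / 2 ^ L' * C₀ := by
        rw [abs_mul]
        exact mul_le_mul h3 h4 (abs_nonneg _) (by positivity)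
      have h6 : (((pos (x ω) i / 2 ^ s : ℕ) : ℝ) / 2 ^ L' - (A (lam ω) i +
          ((T (x ω) / 2 ^ s : ℕ) : ℝ) / 2 ^ L' * B (lam ω) i)) =
          ((pos (x ω) i : ℝ) / 2 ^ L - (A (lam ω) i + (T (x ω) : ℝ) / 2 ^ L * B (lam ω) i)) -
          ((pos (x ω) i : ℝ) / 2 ^ L - ((pos (x ω) i / 2 ^ s : ℕ) : ℝ) / 2 ^ L') +
          ((T (x ω) : ℝ) / 2 ^ L - ((T (x ω) / 2 ^ s : ℕ) : ℝ) / 2 ^ L') * B (lam ω) i := by
        ring
      rw [h6]
      have h7 := abs_add_le (((pos (x ω) i : ℝ) / 2 ^ L - (A (lam ω) i +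
        (T (x ω) : ℝ) / 2 ^ L * B (lam ω) i)) -
          ((pos (x ω) i : ℝ) / 2 ^ L - ((pos (x ω) i / 2 ^ s : ℕ) : ℝ) / 2 ^ L'))
        (((T (x ω) : ℝ) / 2 ^ L - ((T (x ω) / 2 ^ s : ℕ) : ℝ) / 2 ^ L') * B (lam ω) i)
      have h8 := abs_sub ((pos (x ω) i : ℝ) / 2 ^ L - (A (lam ω) i +
        (T (x ω) : ℝ) / 2 ^ L * B (lam ω) i))
          ((pos (x ω) i : ℝ) / 2 ^ L - ((pos (x ω) i / 2 ^ s : ℕ) : ℝ) / 2 ^ L')
      have h9 : C₀ / 2 ^ L' + 1 / 2 ^ L' + 1 / 2 ^ L' * C₀ ≤ C₂ / 2 ^ L' := by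
        rw [← add_div, div_mul_eq_mul_div, one_mul, ← add_div]
        exact div_le_div_of_nonneg_right (by linarith only [hC₀, hC₁, hnC]) hL'0.le
      linarith only [hinv, h1, h2, h5, h7, h8, h9]
  -- cells, corners
  have hcel : ∀ ω, cel (2 ^ (L' - u)) (fun c : Option (Fin n) → ℕ => c) (f (x ω)) =
      cel (2 ^ (L - u)) pos (x ω) := by
    intro ω
    rw [hf]
    exact cel_coarse pos (x ω) hs hu
  have hG : ∀ ω, G (cel (2 ^ (L' - u)) (fun c : Option (Fin n) → ℕ => c) (f (x ω))) =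
      Gc L u pos G (x ω) := by
    intro ω
    rw [hcel]
    rfl
  have hcr : ∀ ω, crn (2 ^ L') (2 ^ (L' - u))
      (cel (2 ^ (L' - u)) (fun c : Option (Fin n) → ℕ => c) (f (x ω))) =
      cc L u pos (x ω) := by
    intro ω
    rw [hcel, crn_coarse _ hs hu]
    rfl
  have hreg' : ∀ ω, 0 < p ω →
      RegG (G (cel (2 ^ (L' - u)) (fun c : Option (Fin n) → ℕ => c) (f (x ω))))
        (crn (2 ^ L') (2 ^ (L' - u))
          (cel (2 ^ (L' - u)) (fun c : Option (Fin n) → ℕ => c) (f (x ω)))) (1 / 2 ^ u) k₀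
          C₂ := by
    intro ω hω
    rw [hG, hcr]
    exact ⟨(hreg ω hω).deg, fun y hy i => ((hreg ω hω).slope y hy i).trans (by linarith only [hC₀, hnC])⟩
  have hnear' : ∀ ω, 0 < p ω → |rp (2 ^ L') (fun c : Option (Fin n) → ℕ => c) (f (x ω)) none -
      MvPolynomial.eval
        (fun i => rp (2 ^ L') (fun c : Option (Fin n) → ℕ => c) (f (x ω)) (some i))
        (G (cel (2 ^ (L' - u)) (fun c : Option (Fin n) → ℕ => c) (f (x ω))))| ≤
          C₂ / 2 ^ L' := by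
    intro ω hω
    rw [hG]
    have hrp : ∀ o, rp (2 ^ L') (fun c : Option (Fin n) → ℕ => c) (f (x ω)) o =
        ((pos (x ω) o / 2 ^ s : ℕ) : ℝ) / 2 ^ L' := by
      intro o
      simp only [rp]
      rw [hfo, hM']
    simp only [hrp]
    have h1 := hnear ω hω
    have hrp1 : ∀ o, rp (2 ^ L) pos (x ω) o = (pos (x ω) o : ℝ) / 2 ^ L := by
      intro o
      simp only [rp]
      rw [hM]
    simp only [hrp1] at h1
    -- the small cube
    have hcube : cube (fun i => ((pos (x ω) (some i) / 2 ^ s : ℕ) : ℝ) / 2 ^ L') (1 / 2 ^ L') ⊆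
        cube (cc L u pos (x ω)) (1 / 2 ^ u) := by
      intro y hy i
      obtain ⟨y1, y2⟩ := hy i
      have e1 : cc L u pos (x ω) i = ((pos (x ω) (some i) / 2 ^ (L - u) : ℕ) : ℝ) / 2 ^ u := by
        have e2 : (2 : ℝ) ^ L = 2 ^ (L - u) * 2 ^ u := by rw [← pow_add]; congr 1; omega
        simp only [Pool.KBX.cc, crn, cel]
        push_cast
        rw [e2]
        field_simp
      have e3 : pos (x ω) (some i) / 2 ^ (L - u) =
          pos (x ω) (some i) / 2 ^ s / 2 ^ (L' - u) := by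
        rw [Nat.div_div_eq_div_mul, ← pow_add]
        congr 2
        omega
      rw [e1, e3]
      set q := pos (x ω) (some i) / 2 ^ s with hq
      have e4 := Nat.div_add_mod q (2 ^ (L' - u))
      have e5 := Nat.mod_lt q (show 0 < 2 ^ (L' - u) by positivity)
      have e6 : 2 ^ (L' - u) * (q / 2 ^ (L' - u)) ≤ q := by omega
      have e7 : q + 1 ≤ 2 ^ (L' - u) * (q / 2 ^ (L' - u) + 1) := by
        rw [mul_add, mul_one]
        omega
      have e6' : (2 : ℝ) ^ (L' - u) * ((q / 2 ^ (L' - u) : ℕ) : ℝ) ≤ q := by exact_mod_cast e6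
      have e7' : (q : ℝ) + 1 ≤ 2 ^ (L' - u) * (((q / 2 ^ (L' - u) : ℕ) : ℝ) + 1) := by
        exact_mod_cast e7
      have e8 : (2 : ℝ) ^ L' = 2 ^ (L' - u) * 2 ^ u := by rw [← pow_add]; congr 1; omega
      have hu0 : (0 : ℝ) < 2 ^ u := by positivity
      have g1 : ((q / 2 ^ (L' - u) : ℕ) : ℝ) / 2 ^ u ≤ (q : ℝ) / 2 ^ L' := by
        rw [div_le_div_iff₀ hu0 hL'0, e8]
        nlinarith only [e6', hu0]
      have g2 : (q : ℝ) / 2 ^ L' + 1 / 2 ^ L' ≤
          ((q / 2 ^ (L' - u) : ℕ) : ℝ) / 2 ^ u + 1 / 2 ^ u := by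
        rw [← add_div, ← add_div, div_le_div_iff₀ hL'0 hu0, e8]
        nlinarith only [e7', hu0]
      constructor <;> linarith
    have h2 := mean_value (Gc L u pos G (x ω))
      (fun i => ((pos (x ω) (some i) / 2 ^ s : ℕ) : ℝ) / 2 ^ L') (1 / 2 ^ L') C₁ (by linarith only [hC₁])
      (fun y hy i => (hreg ω hω).slope y (hcube hy) i)
      (fun i => ((pos (x ω) (some i) / 2 ^ s : ℕ) : ℝ) / 2 ^ L')
      (fun i => (pos (x ω) (some i) : ℝ) / 2 ^ L)
      (fun i => ⟨le_rfl, by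
        have : (0 : ℝ) ≤ 1 / 2 ^ L' := by positivity
        linarith only [this]⟩)
      (fun i => qd _ s L' L hs)
    have h3 := qd' (pos (x ω) none) s L' L hs
    have h4 : C₀ / 2 ^ L' + 1 / 2 ^ L' + n * C₁ * (1 / 2 ^ L') ≤ C₂ / 2 ^ L' := by
      rw [mul_one_div, ← add_div, ← add_div]
      exact div_le_div_of_nonneg_right (by linarith only [hC₀, hC₁]) hL'0.le
    have h5 : ((pos (x ω) none / 2 ^ s : ℕ) : ℝ) / 2 ^ L' -
        MvPolynomial.eval (fun i => ((pos (x ω) (some i) / 2 ^ s : ℕ) : ℝ) / 2 ^ L')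
          (Gc L u pos G (x ω)) =
        ((pos (x ω) none : ℝ) / 2 ^ L -
          MvPolynomial.eval (fun i => (pos (x ω) (some i) : ℝ) / 2 ^ L) (Gc L u pos G (x ω))) -
        ((pos (x ω) none : ℝ) / 2 ^ L - ((pos (x ω) none / 2 ^ s : ℕ) : ℝ) / 2 ^ L') +
        (MvPolynomial.eval (fun i => (pos (x ω) (some i) : ℝ) / 2 ^ L) (Gc L u pos G (x ω)) -
          MvPolynomial.eval (fun i => ((pos (x ω) (some i) / 2 ^ s : ℕ) : ℝ) / 2 ^ L')
            (Gc L u pos G (x ω))) := by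
      ring
    rw [h5]
    have h6 := abs_add_le (((pos (x ω) none : ℝ) / 2 ^ L -
          MvPolynomial.eval (fun i => (pos (x ω) (some i) : ℝ) / 2 ^ L) (Gc L u pos G (x ω))) -
        ((pos (x ω) none : ℝ) / 2 ^ L - ((pos (x ω) none / 2 ^ s : ℕ) : ℝ) / 2 ^ L'))
        (MvPolynomial.eval (fun i => (pos (x ω) (some i) : ℝ) / 2 ^ L) (Gc L u pos G (x ω)) -
          MvPolynomial.eval (fun i => ((pos (x ω) (some i) / 2 ^ s : ℕ) : ℝ) / 2 ^ L')
            (Gc L u pos G (x ω)))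
    have h7 := abs_sub ((pos (x ω) none : ℝ) / 2 ^ L -
          MvPolynomial.eval (fun i => (pos (x ω) (some i) : ℝ) / 2 ^ L) (Gc L u pos G (x ω)))
        ((pos (x ω) none : ℝ) / 2 ^ L - ((pos (x ω) none / 2 ^ s : ℕ) : ℝ) / 2 ^ L')
    linarith only [h1, h2, h3, h4, h6, h7]
  -- time
  have htime : L' * Real.log 2 - CH p (fun ω => f (x ω) (some i₀)) lam ≤ e₁ := by
    have h1 := hLF.time
    have h2 := CH_le_add hp0 (fun ω => T (x ω)) (fun ω => f (x ω) (some i₀)) lam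
    have h3 := CH_le_card hp0 hp.sum_one (fun ω => T (x ω))
      (fun ω => (f (x ω) (some i₀), lam ω))
      (fun w => (Finset.range (2 ^ s)).image fun r => 2 ^ s * w.1 + r) (by
        intro ω _
        rw [Finset.mem_image]
        refine ⟨T (x ω) % 2 ^ s, Finset.mem_range.2 (Nat.mod_lt _ (by positivity)), ?_⟩
        simp only [hTf]
        exact Nat.div_add_mod _ _)
    have h4 : ∀ ω, ((((Finset.range (2 ^ s)).image
        fun r => 2 ^ s * (f (x ω) (some i₀), lam ω).1 + r).card : ℕ) : ℝ) = 2 ^ s := by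
      intro ω
      rw [Finset.card_image_of_injective _ (add_right_injective _), Finset.card_range]
      push_cast
      rfl
    simp only [h4] at h3
    rw [Ex_const hp.sum_one, Real.log_pow] at h3
    have h5 : (L : ℝ) * Real.log 2 = L' * Real.log 2 + s * Real.log 2 := by
      rw [hs]
      push_cast
      ring
    linarith only [h1, h2, h3, h5]
  -- thickness
  have hthin : H p (fun ω => f (x ω)) ≤ n * (L' * Real.log 2) +
      Cc * (e₁ + e₃ + W0 L κ γ ε) := by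
    set ψ : Ξ → ℝ := fun ξ => (pos ξ none : ℝ) / 2 ^ L with hψ
    have hP : PL L 1 L' C₀ p lam x T ψ
        (fun l => Polynomial.C (A l none) + Polynomial.C (B l none) * Polynomial.X) := by
      refine ⟨?_, ?_, ?_⟩
      · intro ω _
        have h1 := hleaf.pos_lt ω none
        have h2 : (pos (x ω) none : ℝ) ≤ 2 ^ L := by exact_mod_cast h1.le
        rw [hψ]
        simp only
        rw [abs_of_nonneg (by positivity), div_le_one (by positivity)]
        exact h2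
      · intro l
        compute_degree
      · intro ω _
        have h1 := hleaf.near ω none
        rw [hM] at h1
        simp only [hψ, Polynomial.eval_add, Polynomial.eval_mul, Polynomial.eval_C,
          Polynomial.eval_X]
        refine le_trans (le_of_eq ?_) (h1.trans hinv)
        congr 1
        ring
    obtain ⟨h1, -⟩ := hcon Ω Λ Ξ p lam x T pos A B L κ γ L' δ ε e₁ e₃ ψ _ hLF hL' hP
    have h2 : H p (fun ω => f (x ω)) ≤
        H p (fun ω => (dg L' ψ (x ω), bc L L' pos (x ω))) := by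
      refine H_mono hp0 ?_
      intro ω ω' _ _ h
      have h3 := (Prod.ext_iff.mp h).1
      have h4 := (Prod.ext_iff.mp h).2
      simp only at h3 h4
      have hLs : L - L' = s := by omega
      funext o
      change f (x ω) o = f (x ω') o
      rw [hfo, hfo]
      rcases o with _ | i
      · have h5 : ∀ ξ, dg L' ψ ξ = ((pos ξ none / 2 ^ s : ℕ) : ℤ) := by
          intro ξ
          unfold dg
          rw [Int.floor_eq_iff]
          simp only [hψ]
          obtain ⟨g1, g2⟩ := qd (pos ξ none) s L' L hs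
          have g3 : pos ξ none < 2 ^ s * (pos ξ none / 2 ^ s + 1) :=
            Nat.lt_mul_div_succ _ (by positivity)
          have g4 : (pos ξ none : ℝ) < 2 ^ s * (((pos ξ none / 2 ^ s : ℕ) : ℝ) + 1) := by
            exact_mod_cast g3
          have g5 : (2 : ℝ) ^ L = 2 ^ s * 2 ^ L' := by rw [hs, pow_add, mul_comm]
          have g6 : (2 : ℝ) ^ L' * ((pos ξ none : ℝ) / 2 ^ L) = (pos ξ none : ℝ) / 2 ^ s := by
            rw [g5]
            field_simp
          rw [g6]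
          have hs0 : (0 : ℝ) < 2 ^ s := by positivity
          constructor
          · rw [le_div_iff₀ hs0]
            have g7 := Nat.div_mul_le_self (pos ξ none) (2 ^ s)
            exact_mod_cast g7
          · rw [div_lt_iff₀ hs0, mul_comm]
            push_cast
            exact_mod_cast g4
        rw [h5, h5] at h3
        exact_mod_cast h3
      · have h5 := congrFun h4 i
        simp only [bc, sce, hLs] at h5
        exact h5
    have h3 : H p (fun ω => (dg L' ψ (x ω), bc L L' pos (x ω))) =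
        CH p (fun ω => dg L' ψ (x ω)) (fun ω => bc L L' pos (x ω)) +
          H p (fun ω => bc L L' pos (x ω)) := by
      unfold CH
      ring
    have h4 : H p (fun ω => bc L L' pos (x ω)) ≤ n * (L' * Real.log 2) := by
      have g1 := H_le_log_card hp0 hp.sum_one (fun ω => bc L L' pos (x ω))
        (Fintype.piFinset fun _ : Fin n => Finset.range (2 ^ L')) (by
          intro ω _
          rw [Fintype.mem_piFinset]
          intro i
          rw [Finset.mem_range]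
          have hLs : L - L' = s := by omega
          simp only [bc, sce, hLs]
          exact div_lt_pow hs (hleaf.pos_lt ω (some i)))
      rw [Fintype.card_piFinset] at g1
      simp only [Finset.card_range, Finset.prod_const, Finset.card_univ, Fintype.card_fin] at g1
      push_cast at g1
      rw [Real.log_pow, Real.log_pow] at g1
      exact g1
    linarith only [h1, h2, h3, h4]
  have hex : Ex p (fun _ => ε) ≤ ε := by rw [Ex_const hp.sum_one]
  have hmain := hfin Ω Λ (Option (Fin n) → ℕ) p lam (fun ω => f (x ω)) (fun c => c (some i₀))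
    (fun c => c) A B G L' u κ γ N δ ε e₁ (Cc * (e₁ + e₃ + W0 L κ γ ε)) (fun _ => ε) hju hleaf'
    hreg' hnear' hLF.δ_pos (fun _ => hε) hex (ncf_coarse hp0 hε hLF.ncf f) hdet hLF.κ_pos
    htime he₁0 (by positivity) hthin
  have hlhs : (∑ ω, (if Bad (G (cel (2 ^ (L' - u)) (fun c : Option (Fin n) → ℕ => c) (f (x ω))))
        (crn (2 ^ L') (2 ^ (L' - u))
          (cel (2 ^ (L' - u)) (fun c : Option (Fin n) → ℕ => c) (f (x ω))))
        (1 / 2 ^ u) D (2 ^ (u * (j + 1)) / 2 ^ L') then p ω else 0)) =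
      Pr p {ω | Bad (Gc L u pos G (x ω)) (cc L u pos (x ω)) (1 / 2 ^ u) D
        (2 ^ (u * (j + 1)) / 2 ^ L')} := by
    rw [prE]
    refine Finset.sum_congr rfl fun ω _ => ?_
    rw [hG, hcr]
    rfl
  rw [← hlhs]
  refine le_trans hmain ?_
  rw [mul_assoc]
  refine mul_le_mul_of_nonneg_left ?_ hCf
  have hr0 : 0 ≤ (1 - 1 / (n : ℝ)) ^ N := by
    refine pow_nonneg ?_ N
    rcases Nat.eq_zero_or_pos n with h | h
    · rw [h]
      simp
    · have : (1 : ℝ) ≤ n := by exact_mod_cast h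
      rw [sub_nonneg, div_le_one (by linarith only [this])]
      exact this
  have e1 : (1 - 1 / (n : ℝ)) ^ N * (L' : ℝ) ≤ (1 - 1 / (n : ℝ)) ^ N * L :=
    mul_le_mul_of_nonneg_left hL'R hr0
  have e2 : (L' : ℝ) / κ + γ + κ + 1 + ε * L' ≤ W0 L κ γ ε := by
    unfold W0
    have g1 : (L' : ℝ) / κ ≤ L / κ := div_le_div_of_nonneg_right hL'R (by linarith only [hκ0])
    have g2 : ε * (L' : ℝ) ≤ ε * L := mul_le_mul_of_nonneg_left hL'R hε
    linarith only [g1, g2]
  have hN0 : (0 : ℝ) ≤ N := Nat.cast_nonneg N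
  have e3 : e₁ ≤ (N + 1) * (e₁ + 1) := by nlinarith only [he₁0]
  have e4 : 0 ≤ (1 - 1 / (n : ℝ)) ^ N * L := by positivity
  have e5 : Cc * (e₁ + e₃ + W0 L κ γ ε) ≤ Cc * ((N + 1) * (e₁ + 1) + e₃ +
      (1 - 1 / (n : ℝ)) ^ N * L + W0 L κ γ ε) :=
    mul_le_mul_of_nonneg_left (by linarith only [e3, e4]) (by linarith only [hCc])
  nlinarith only [he₃0, e1, e2, e5]

theorem jun : JUNStmt := jun_thm (con_thm Pool.Agent.H67.KBX.cro_thm)

end Pool.Agent.H81.KBX
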